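import Mathlib
import Pool.Agent.Chud.Defs
import Pool.Agent.U334.CQ.All

set_option autoImplicit false

namespace Pool.Agent.Results.MP_5c592f_ag.WaldschmidtEquality

open Filter Topology Pool.Agent.Chud

/-- **Equality in Chudnovsky's bound for the Waldschmidt constant, in all dimensions and all
characteristics.** Let `S` be a finite set of points of the projective space of dimension `N ≥ 1`
over an algebraically closed field. If the limit of `a(S,m)/m` is equal to `(a(S,1)+N-1)/N`, then
`S` is contained in a hyperplane or `S` is a star configuration. -/
theorem result {k : Type*} [Field k] [IsAlgClosed k] (N : ℕ) (hN : 1 ≤ N) (S : Finset (PP k N))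
    (h : Tendsto (fun m : ℕ => (aS S m : ℝ) / m) atTop (𝓝 (((aS S 1 : ℝ) + N - 1) / N))) :
    InHyperplane S ∨ IsStar S :=
  Pool.Agent.U334.CQ.waldschmidt_equality k N hN S h

end Pool.Agent.Results.MP_5c592f_ag.WaldschmidtEquality
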